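import Mathlib

set_option autoImplicit false
open Set
open scoped InnerProductSpace

namespace Pool.Agent.Results.MP_8db9bd_an.Hilbert

section defs
variable (X : Type) [NormedAddCommGroup X] [NormedSpace ℂ X]

/-- numerical radius of a map `P : X → X` -/
noncomputable def numRad (P : X → X) : ℝ :=
  sSup {r | ∃ (x : X) (φ : StrongDual ℂ X), ‖x‖ = 1 ∧ ‖φ‖ = 1 ∧ φ x = 1 ∧ r = ‖φ (P x)‖}

/-- sup norm over the unit sphere -/
noncomputable def supNorm (P : X → X) : ℝ := sSup {r | ∃ x : X, ‖x‖ = 1 ∧ r = ‖P x‖}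

/-- polynomial numerical index of order `k` -/
noncomputable def index (k : ℕ) : ℝ :=
  sInf {r | ∃ A : ContinuousMultilinearMap ℂ (fun _ : Fin k => X) X,
    supNorm X (fun x => A fun _ => x) = 1 ∧ r = numRad X (fun x => A fun _ => x)}
end defs

variable {H : Type} [NormedAddCommGroup H] [InnerProductSpace ℂ H]

lemma key (P : H → H) (hP : Differentiable ℂ P) (v : ℝ) (m : ℕ)
    (hv : ∀ w, ‖⟪w, P w⟫_ℂ‖ ≤ v * ‖w‖ ^ m) (hv0 : 0 ≤ v) (x y : H) (hx : ‖x‖ = 1) (hy : ‖y‖ = 1)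
    (r : ℝ) (hr : 0 < r) : r * ‖⟪y, P x⟫_ℂ‖ ≤ v * √(1 + r ^ 2) ^ m := by
  set u := √(1 + r ^ 2) with hu
  have hu0 : 0 < u := Real.sqrt_pos.mpr (by positivity)
  have hu2 : u ^ 2 = 1 + r ^ 2 := Real.sq_sqrt (by positivity)
  set τ := ⟪x, y⟫_ℂ with hτ
  have hτ1 : ‖τ‖ ≤ 1 := by
    have := norm_inner_le_norm (𝕜 := ℂ) x y
    rwa [hx, hy, mul_one] at this
  have huc : (u : ℂ) ≠ 0 := by exact_mod_cast hu0.ne'
  have hA : ∀ z : ℂ, ‖z‖ ≤ r → (u : ℂ) + τ * z / u ≠ 0 := by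
    intro z hz h
    have h1 : τ * z = -(u * u : ℂ) := by
      have : τ * z / u = -u := eq_neg_of_add_eq_zero_right h
      rw [div_eq_iff huc] at this
      rw [this]; ring
    have h2 := congrArg norm h1
    rw [norm_mul, norm_neg, norm_mul, Complex.norm_real, Real.norm_eq_abs, abs_of_pos hu0] at h2
    have := mul_le_mul hτ1 hz (norm_nonneg _) zero_le_one
    nlinarith [sq_nonneg (r - 1)]
  have hPd : Differentiable ℂ fun z : ℂ => P (x + z • y) := hP.comp (by fun_prop)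
  have d1 : Differentiable ℂ fun z : ℂ => ⟪x, P (x + z • y)⟫_ℂ :=
    (innerSL ℂ x).differentiable.comp hPd
  have d2 : Differentiable ℂ fun z : ℂ => ⟪y, P (x + z • y)⟫_ℂ :=
    (innerSL ℂ y).differentiable.comp hPd
  have hd : DiffContOnCl ℂ (fun z : ℂ => ((u : ℂ) / (u + τ * z / u)) ^ m *
      (z * ⟪x, P (x + z • y)⟫_ℂ + (r : ℂ) ^ 2 * ⟪y, P (x + z • y)⟫_ℂ)) (Metric.ball 0 r) := by
    apply DifferentiableOn.diffContOnCl
    rw [closure_ball _ hr.ne']
    intro z hz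
    apply DifferentiableAt.differentiableWithinAt
    have dd : DifferentiableAt ℂ (fun z : ℂ => (u : ℂ) + τ * z / u) z := by fun_prop
    refine DifferentiableAt.mul (DifferentiableAt.pow (DifferentiableAt.div
      (differentiableAt_const (u : ℂ)) dd (hA z (by simpa using hz))) _) ?_
    exact (differentiableAt_id.mul (d1 z)).add ((d2 z).const_mul _)
  have := Complex.norm_le_of_forall_mem_frontier_norm_le Metric.isBounded_ball hd
    (C := r * (v * u ^ m)) (z := 0) ?_ (subset_closure (Metric.mem_ball_self hr))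
  · simp only [mul_zero, zero_div, add_zero, div_self huc, one_pow, zero_mul, zero_smul, zero_add,
      one_mul, norm_mul, norm_pow, Complex.norm_real, Real.norm_eq_abs, abs_of_pos hr] at this
    nlinarith
  intro z hz
  rw [frontier_ball _ hr.ne'] at hz
  have hz1 : ‖z‖ = r := by simpa using hz
  have e : z * ⟪x, P (x + z • y)⟫_ℂ + (r : ℂ) ^ 2 * ⟪y, P (x + z • y)⟫_ℂ
      = z * ⟪x + z • y, P (x + z • y)⟫_ℂ := by
    rw [inner_add_left, inner_smul_left, mul_add, ← mul_assoc, Complex.mul_conj', hz1]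
  have a0 : 0 < ‖(u : ℂ) + τ * z / u‖ := norm_pos_iff.mpr (hA z hz1.le)
  have a1 : ‖x + z • y‖ ≤ ‖(u : ℂ) + τ * z / u‖ := by
    apply le_of_sq_le_sq _ (norm_nonneg _) |> fun h => h
    rw [norm_add_sq (𝕜 := ℂ), inner_smul_right, norm_smul, hx, hy, hz1, ← hτ]
    have b1 : (u : ℝ) * (τ * z / u).re = (z * τ).re := by
      rw [Complex.div_ofReal_re, mul_comm z τ]; field_simp
    have b2 : ‖(u : ℂ) + τ * z / u‖ ^ 2 = u ^ 2 + 2 * (u * (τ * z / u).re) + ‖τ * z / u‖ ^ 2 := by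
      generalize τ * z / u = w
      rw [Complex.sq_norm, Complex.sq_norm, Complex.normSq_apply, Complex.normSq_apply]
      simp
      ring
    rw [b2, b1, hu2]
    simp only [RCLike.re_to_complex]
    nlinarith [sq_nonneg ‖τ * z / u‖]
  rw [e, norm_mul, norm_mul, norm_pow, norm_div, hz1, Complex.norm_real, Real.norm_eq_abs,
    abs_of_pos hu0]
  have a2 : ‖⟪x + z • y, P (x + z • y)⟫_ℂ‖ ≤ v * ‖(u : ℂ) + τ * z / u‖ ^ m :=
    le_trans (hv _) (by gcongr)
  calc (u / ‖(u : ℂ) + τ * z / u‖) ^ m * (r * ‖⟪x + z • y, P (x + z • y)⟫_ℂ‖)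
      ≤ (u / ‖(u : ℂ) + τ * z / u‖) ^ m * (r * (v * ‖(u : ℂ) + τ * z / u‖ ^ m)) := by gcongr
    _ = r * (v * u ^ m) := by
      generalize ‖(u : ℂ) + τ * z / u‖ = q at a0
      rw [div_pow]; field_simp

section
variable {k : ℕ} (A : ContinuousMultilinearMap ℂ (fun _ : Fin k => H) H)

lemma bddR : BddAbove {r | ∃ (x : H) (φ : StrongDual ℂ H), ‖x‖ = 1 ∧ ‖φ‖ = 1 ∧ φ x = 1 ∧
    r = ‖φ (A fun _ => x)‖} := by
  refine ⟨‖A‖, ?_⟩
  rintro _ ⟨x, φ, hx, hφ, -, rfl⟩
  have a := φ.le_opNorm (A fun _ => x)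
  have b := A.le_opNorm fun _ => x
  simp only [hx, Finset.prod_const_one, mul_one] at b
  rw [hφ, one_mul] at a
  exact le_trans a b

lemma rad_nonneg (P : H → H) : 0 ≤ numRad H P :=
  Real.sSup_nonneg (by rintro _ ⟨x, φ, -, -, -, rfl⟩; exact norm_nonneg _)

lemma unit_le (x : H) (hx : ‖x‖ = 1) :
    ‖⟪x, A fun _ => x⟫_ℂ‖ ≤ numRad H (fun x => A fun _ => x) :=
  le_csSup (bddR A) ⟨x, innerSL ℂ x, hx, by rw [innerSL_apply_norm, hx],
    by rw [innerSL_apply_apply, inner_self_eq_norm_sq_to_K, hx]; simp, rfl⟩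

lemma all_le (w : H) :
    ‖⟪w, A fun _ => w⟫_ℂ‖ ≤ numRad H (fun x => A fun _ => x) * ‖w‖ ^ (k + 1) := by
  rcases eq_or_ne w 0 with rfl | hw
  · simp
  have hn : 0 < ‖w‖ := norm_pos_iff.mpr hw
  set x : H := ((‖w‖ : ℂ)⁻¹) • w with hx
  have hx1 : ‖x‖ = 1 := by
    rw [hx, norm_smul, norm_inv, Complex.norm_real, norm_norm, inv_mul_cancel₀ hn.ne']
  have e : w = (‖w‖ : ℂ) • x := by
    rw [hx, smul_smul, mul_inv_cancel₀ (by exact_mod_cast hn.ne'), one_smul]
  have h1 : (A fun _ => w) = (‖w‖ : ℂ) ^ k • A fun _ => x := by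
    conv_lhs => rw [e]
    rw [A.map_smul_univ]
    simp
  have h2 : ⟪w, A fun _ => w⟫_ℂ = (‖w‖ : ℂ) ^ (k + 1) * ⟪x, A fun _ => x⟫_ℂ := by
    rw [h1, inner_smul_right]
    conv_lhs => rw [e, inner_smul_left]
    simp only [Complex.conj_ofReal, ← e]
    ring
  rw [h2, norm_mul, norm_pow, Complex.norm_real, norm_norm, mul_comm]
  exact mul_le_mul_of_nonneg_right (unit_le A x hx1) (by positivity)

lemma lower (hk : 1 ≤ k) (hA : supNorm H (fun x => A fun _ => x) = 1) :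
    √((k : ℝ) ^ k / ((k : ℝ) + 1) ^ (k + 1)) ≤ numRad H (fun x => A fun _ => x) := by
  have hk0 : (0 : ℝ) < k := by exact_mod_cast hk
  set v := numRad H (fun x => A fun _ => x) with hv
  have hv0 : 0 ≤ v := rad_nonneg _
  set r := √(1 / (k : ℝ)) with hr
  have hr0 : 0 < r := Real.sqrt_pos.mpr (by positivity)
  have hr2 : r ^ 2 = 1 / k := Real.sq_sqrt (by positivity)
  have hd : Differentiable ℂ fun x : H => A fun _ => x :=
    (A.contDiff (n := 1)).differentiable (by norm_num) |>.comp (by fun_prop)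
  have hu0 : 0 < √(1 + r ^ 2) ^ (k + 1) := by positivity
  have h1 : 1 ≤ v * √(1 + r ^ 2) ^ (k + 1) / r := by
    refine le_trans hA.ge (Real.sSup_le ?_ (by positivity))
    rintro _ ⟨x, hx, rfl⟩
    rcases eq_or_ne (A fun _ => x) 0 with h | h
    · simp only [h, norm_zero]; positivity
    have hn : 0 < ‖A fun _ => x‖ := norm_pos_iff.mpr h
    have := key _ hd v (k + 1) (all_le A) hv0 x (((‖A fun _ => x‖ : ℂ)⁻¹) • A fun _ => x) hx
      (by rw [norm_smul, norm_inv, Complex.norm_real, norm_norm, inv_mul_cancel₀ hn.ne']) r hr0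
    rw [inner_smul_left, inner_self_eq_norm_sq_to_K] at this
    simp only [map_inv₀, Complex.conj_ofReal, norm_mul, norm_inv, Complex.norm_real, norm_norm,
      norm_pow, Complex.coe_algebraMap] at this
    rw [le_div_iff₀ hr0]
    simp only
    rw [sq, ← mul_assoc (‖A fun _ => x‖⁻¹), inv_mul_cancel₀ hn.ne', one_mul] at this
    linarith
  rw [le_div_iff₀ hr0, one_mul] at h1
  have h2 : √((k : ℝ) ^ k / ((k : ℝ) + 1) ^ (k + 1)) * √(1 + r ^ 2) ^ (k + 1) = r := by
    rw [← pow_left_inj₀ (by positivity) hr0.le two_ne_zero]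
    rw [mul_pow, Real.sq_sqrt (by positivity), ← pow_mul, mul_comm (k + 1) 2, pow_mul,
      Real.sq_sqrt (by positivity), hr2]
    have : (1 + 1 / (k : ℝ)) = (k + 1) / k := by field_simp
    rw [this, div_pow]
    field_simp
    ring
  exact le_of_mul_le_mul_right (h2.le.trans h1) hu0
end

lemma amgm (k : ℕ) (hk : 1 ≤ k) (s : ℝ) (h0 : 0 ≤ s) (h1 : s ≤ 1) :
    s ^ k * (1 - s) ≤ (k : ℝ) ^ k / ((k : ℝ) + 1) ^ (k + 1) := by
  have hk0 : (1 : ℝ) ≤ k := by exact_mod_cast hk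
  set x := s * (k + 1) / k with hx
  have hx0 : 0 ≤ x := by positivity
  have hx2 : x ≤ 2 := by rw [hx, div_le_iff₀ (by linarith)]; nlinarith
  have b1 : 1 + (k : ℝ) * (1 - x) ≤ (1 + (1 - x)) ^ k := one_add_mul_le_pow (by linarith) k
  have b2 : x ^ k * (1 + (1 - x)) ^ k ≤ 1 := by
    rw [← mul_pow]
    exact pow_le_one₀ (mul_nonneg hx0 (by linarith)) (by nlinarith [sq_nonneg (x - 1)])
  have b3 : x ^ k * (1 + (k : ℝ) * (1 - x)) ≤ 1 :=
    le_trans (mul_le_mul_of_nonneg_left b1 (by positivity)) b2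
  have e1 : s = x * k / (k + 1) := by rw [hx]; field_simp
  have e2 : 1 - s = (1 + (k : ℝ) * (1 - x)) / (k + 1) := by rw [hx]; field_simp; ring
  rw [e2, e1, div_pow, mul_pow, div_mul_div_comm, ← pow_succ]
  gcongr
  have : (0 : ℝ) ≤ (k : ℝ) ^ k := by positivity
  nlinarith

noncomputable def mon (k : ℕ) (a b : H) : ContinuousMultilinearMap ℂ (fun _ : Fin k => H) H :=
  ((ContinuousMultilinearMap.mkPiAlgebra ℂ (Fin k) ℂ).compContinuousLinearMap
      fun _ => innerSL ℂ a).smulRight b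

lemma mon_apply (k : ℕ) (a b x : H) : (mon k a b fun _ => x) = ⟪a, x⟫_ℂ ^ k • b := by
  simp [mon]

lemma mon_norm (k : ℕ) (a b : H) (ha : ‖a‖ = 1) (hb : ‖b‖ = 1) :
    supNorm H (fun x => mon k a b fun _ => x) = 1 := by
  apply IsGreatest.csSup_eq
  constructor
  · refine ⟨a, ha, ?_⟩
    simp only [mon_apply, norm_smul, hb, inner_self_eq_norm_sq_to_K, ha]
    simp
  · rintro _ ⟨x, hx, rfl⟩
    simp only [mon_apply, norm_smul, hb, mul_one, norm_pow]
    refine pow_le_one₀ (norm_nonneg _) ?_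
    have := norm_inner_le_norm (𝕜 := ℂ) a x
    rwa [ha, hx, mul_one] at this

lemma unit (w : H) (hw : w ≠ 0) : ‖((‖w‖ : ℂ)⁻¹) • w‖ = 1 := by
  rw [norm_smul, norm_inv, Complex.norm_real, norm_norm, inv_mul_cancel₀ (norm_ne_zero_iff.mpr hw)]

theorem result (H : Type) [NormedAddCommGroup H] [InnerProductSpace ℂ H] [CompleteSpace H]
    (k : ℕ) (hk : 1 ≤ k) :
    (1 < Module.rank ℂ H → index H k = √((k : ℝ) ^ k / ((k : ℝ) + 1) ^ (k + 1))) ∧
    (Module.rank ℂ H = 1 → index H k = 1) := by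
  constructor
  · intro hr
    have : Nontrivial H := rank_pos_iff_nontrivial.mp (lt_trans zero_lt_one hr)
    obtain ⟨a0, ha0⟩ := exists_ne (0 : H)
    have ha := unit a0 ha0
    set a := ((‖a0‖ : ℂ)⁻¹) • a0
    have hane : a ≠ 0 := by rw [← norm_ne_zero_iff, ha]; norm_num
    obtain ⟨y, hy⟩ := exists_linearIndependent_pair_of_one_lt_rank hr hane
    have hb0 : y - ⟪a, y⟫_ℂ • a ≠ 0 := by
      intro h
      have := (LinearIndependent.pair_iff.mp hy (-⟪a, y⟫_ℂ) 1 (by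
        rw [neg_smul, one_smul, ← h]; abel)).2
      exact one_ne_zero this
    have hb := unit _ hb0
    set b := ((‖y - ⟪a, y⟫_ℂ • a‖ : ℂ)⁻¹) • (y - ⟪a, y⟫_ℂ • a) with hbd
    have hab : ⟪a, b⟫_ℂ = 0 := by
      rw [hbd, inner_smul_right, inner_sub_right, inner_smul_right, inner_self_eq_norm_sq_to_K, ha]
      simp
    apply IsLeast.csInf_eq
    refine ⟨⟨mon k a b, mon_norm k a b ha hb, le_antisymm (lower _ hk (mon_norm k a b ha hb)) ?_⟩, ?_⟩
    · refine Real.sSup_le ?_ (Real.sqrt_nonneg _)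
      rintro _ ⟨x, φ, hx, hφ, h, rfl⟩
      obtain ⟨w, rfl⟩ := (InnerProductSpace.toDual ℂ H).surjective φ
      rw [LinearIsometryEquiv.norm_map] at hφ
      rw [InnerProductSpace.toDual_apply_apply] at h
      have e := (inner_eq_one_iff_of_norm_eq_one hφ hx).mp h
      subst e
      simp only [mon_apply, InnerProductSpace.toDual_apply_apply, inner_smul_right, norm_mul, norm_pow]
      apply Real.le_sqrt_of_sq_le
      have ho : Orthonormal ℂ ![a, b] := by
        rw [orthonormal_iff_ite]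
        intro i j
        have hba : ⟪b, a⟫_ℂ = 0 := by rw [← inner_conj_symm, hab]; simp
        fin_cases i <;> fin_cases j <;> simp [inner_self_eq_norm_sq_to_K, ha, hb, hab, hba]
      have bes := ho.sum_inner_products_le w (s := Finset.univ)
      simp only [Fin.sum_univ_two, Matrix.cons_val_zero, Matrix.cons_val_one, hx] at bes
      rw [norm_inner_symm w b]
      have := amgm k hk (‖⟪a, w⟫_ℂ‖ ^ 2) (sq_nonneg _) (by nlinarith [sq_nonneg ‖⟪b, w⟫_ℂ‖])
      refine le_trans ?_ this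
      rw [mul_pow, ← pow_mul, mul_comm k 2, pow_mul]
      gcongr
      linarith
    · rintro _ ⟨A, hA, rfl⟩
      exact lower A hk hA
  · intro hr
    obtain ⟨a0, ha0, hspan⟩ := rank_eq_one_iff.mp hr
    have all : ∀ A : ContinuousMultilinearMap ℂ (fun _ : Fin k => H) H,
        supNorm H (fun x => A fun _ => x) = 1 → numRad H (fun x => A fun _ => x) = 1 := by
      intro A hA
      apply le_antisymm
      · refine Real.sSup_le ?_ zero_le_one
        rintro _ ⟨x, φ, hx, hφ, -, rfl⟩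
        have a := φ.le_opNorm (A fun _ => x)
        rw [hφ, one_mul] at a
        refine le_trans a (hA ▸ le_csSup ⟨‖A‖, ?_⟩ ⟨x, hx, rfl⟩)
        rintro _ ⟨z, hz, rfl⟩
        have b := A.le_opNorm fun _ => z
        simpa only [hz, Finset.prod_const_one, mul_one] using b
      · rw [← hA]
        refine Real.sSup_le ?_ (rad_nonneg _)
        rintro _ ⟨x, hx, rfl⟩
        refine le_trans (le_of_eq ?_) (unit_le A x hx)
        obtain ⟨c, hc⟩ := hspan x
        obtain ⟨d, hd⟩ := hspan (A fun _ => x)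
        have hc0 : c ≠ 0 := by rintro rfl; rw [← hc] at hx; simp at hx
        have e : (A fun _ => x) = (d / c) • x := by
          rw [← hd]
          conv_rhs => rw [← hc, smul_smul, div_mul_cancel₀ _ hc0]
        simp only
        rw [e, inner_smul_right, inner_self_eq_norm_sq_to_K, norm_smul, hx]
        simp
    apply IsLeast.csInf_eq
    refine ⟨⟨mon k _ _, mon_norm k _ _ (unit a0 ha0) (unit a0 ha0),
      (all _ (mon_norm k _ _ (unit a0 ha0) (unit a0 ha0))).symm⟩, ?_⟩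
    rintro _ ⟨A, hA, rfl⟩
    exact (all A hA).ge

end Pool.Agent.Results.MP_8db9bd_an.Hilbert
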